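import Pool.Agent.W544.PG.Defs6

/-!
# Project PG (helper544), part SEP
-/

open Matrix Finset Module

namespace Pool.Agent.W143.PG

open Pool.Agent.W544.PG

section gen
variable {N κ : Type} [Fintype N] [DecidableEq N] [Fintype κ] [DecidableEq κ]

/-- action of a matrix on forms with variables indexed by `N` -/
noncomputable def aN (y : Matrix κ κ ℂ) (s : (N → κ) → ℂ) : (N → κ) → ℂ :=
  fun J => ∑ j, ∑ c, y c (J j) * s (Function.update J j c)

/-- a form as a multilinear map -/
noncomputable def EE (s : (N → κ) → ℂ) : MultilinearMap ℂ (fun _ : N => κ → ℂ) ℂ :=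
  ∑ J : N → κ, (s J) • (MultilinearMap.mkPiAlgebra ℂ N ℂ).compLinearMap
    (fun j => LinearMap.proj (J j))

lemma EE_apply (s : (N → κ) → ℂ) (v : N → κ → ℂ) : EE s v = ∑ J, s J * ∏ j, v j (J j) := by
  simp [EE]

/-- the derivation given by `y` -/
noncomputable def Dr (y : Matrix κ κ ℂ)
    (f : MultilinearMap ℂ (fun _ : N => κ → ℂ) ℂ) :
    MultilinearMap ℂ (fun _ : N => κ → ℂ) ℂ :=
  ∑ j, f.compLinearMap (fun i => if i = j then y.mulVecLin else LinearMap.id)

lemma Dr_apply (y : Matrix κ κ ℂ)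
    (f : MultilinearMap ℂ (fun _ : N => κ → ℂ) ℂ) (v : N → κ → ℂ) :
    Dr y f v = ∑ j, f (Function.update v j (y *ᵥ v j)) := by
  unfold Dr
  rw [_root_.sum_apply]
  refine sum_congr rfl fun j _ => ?_
  rw [MultilinearMap.compLinearMap_apply]
  congr 1
  funext i
  by_cases h : i = j
  · subst h
    simp
  · simp [h]

lemma EE_single (s : (N → κ) → ℂ) (J : N → κ) :
    EE s (fun i => Pi.single (J i) 1) = s J := by
  rw [EE_apply, sum_eq_single J]
  · simp
  · intro I _ hI
    obtain ⟨j, hj⟩ := Function.ne_iff.1 hI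
    rw [prod_eq_zero (mem_univ j), mul_zero]
    rw [Pi.single_eq_of_ne hj]
  · intro h
    exact absurd (mem_univ J) h

lemma Dr_single (y : Matrix κ κ ℂ) (s : (N → κ) → ℂ) (J : N → κ) :
    Dr y (EE s) (fun i => Pi.single (J i) 1) = aN y s J := by
  unfold aN
  rw [Dr_apply]
  refine sum_congr rfl fun j _ => ?_
  have h1 : y *ᵥ (Pi.single (J j) 1 : κ → ℂ) =
      ∑ l, y l (J j) • (Pi.single l 1 : κ → ℂ) := by
    funext m
    rw [Matrix.mulVec_single_one, Finset.sum_apply]
    simp [Pi.single_apply, Matrix.col]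
  rw [h1, MultilinearMap.map_update_sum]
  refine sum_congr rfl fun l _ => ?_
  rw [MultilinearMap.map_update_smul, smul_eq_mul, ← EE_single s (Function.update J j l)]
  congr 2
  funext i
  by_cases h : i = j
  · subst h
    simp
  · simp [h]

lemma kil_iff (y : Matrix κ κ ℂ) (s : (N → κ) → ℂ) : aN y s = 0 ↔ Dr y (EE s) = 0 := by
  constructor
  · intro h
    refine Module.Basis.ext_multilinear (fun _ => Pi.basisFun ℂ κ) fun J => ?_
    simp only [Pi.basisFun_apply]
    rw [Dr_single, h]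
    rfl
  · intro h
    funext J
    rw [← Dr_single, h]
    rfl

lemma Dr_eigen (x : Matrix κ κ ℂ)
    (f : MultilinearMap ℂ (fun _ : N => κ → ℂ) ℂ) (v : N → κ → ℂ)
    (a : N → ℂ) (h : ∀ j, x *ᵥ v j = a j • v j) :
    Dr x f v = (∑ j, a j) * f v := by
  rw [Dr_apply, sum_mul]
  refine sum_congr rfl fun j _ => ?_
  rw [h j, MultilinearMap.map_update_smul, Function.update_eq_self, smul_eq_mul]

/-- a form killed by `y` vanishes on eigenvectors with nonzero sum of eigenvalues -/
lemma killed {y : Matrix κ κ ℂ} {s : (N → κ) → ℂ} (h : aN y s = 0) (v : N → κ → ℂ) (a : N → ℂ)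
    (hv : ∀ j, y *ᵥ v j = a j • v j) (ha : ∑ j, a j ≠ 0) : ∑ J, s J * ∏ j, v j (J j) = 0 := by
  have h1 := Dr_eigen y (EE s) v a hv
  rw [(kil_iff y s).1 h, _root_.zero_apply, EE_apply] at h1
  rcases mul_eq_zero.1 h1.symm with h2 | h2
  · exact absurd h2 ha
  · exact h2

/-- `hX` for forms with variables indexed by `N` -/
lemma hX_gen {X Y : Matrix κ κ ℂ} (hY : Y ∈ hX X) {k : ℕ} (e : N ≃ Fin k) (t : (N → κ) → ℚ)
    (h : aN X (fun J => (t J : ℂ)) = 0) : aN Y (fun J => (t J : ℂ)) = 0 := by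
  have key : ∀ (Z : Matrix κ κ ℂ) (J : Fin k → κ),
      act Z (cx (fun J : Fin k → κ => t (J ∘ e))) J = aN Z (fun J => (t J : ℂ)) (J ∘ e) := by
    intro Z J
    unfold act aN cx
    rw [← Equiv.sum_comp e]
    refine sum_congr rfl fun i _ => sum_congr rfl fun c _ => ?_
    have : Function.update J (e i) c ∘ e = Function.update (J ∘ e) i c := by
      funext j
      by_cases hj : j = i
      · subst hj; simp
      · simp [hj]
    show Z c (J (e i)) * ((t (Function.update J (e i) c ∘ e) : ℚ) : ℂ) =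
      Z c (J (e i)) * ((t (Function.update (J ∘ e) i c) : ℚ) : ℂ)
    rw [this]
  have h1 : act X (cx (fun J : Fin k → κ => t (J ∘ e))) = 0 := by
    funext J
    rw [key, h]
    rfl
  have h2 := hY k _ h1
  funext J
  have h3 := congrFun h2 (J ∘ e.symm)
  rw [key] at h3
  have h4 : (J ∘ e.symm) ∘ e = J := by
    funext j; simp
  rw [h4] at h3
  exact h3

end gen

section two

variable {S : Type} [Fintype S] [DecidableEq S] {m l w : ℕ}

/-- the tuple of indices -/
def mk (J : Fin m → S) (L : Fin l → Fin w) : Fin m ⊕ Fin l → S ⊕ Fin w :=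
  Sum.elim (fun j => Sum.inl (J j)) (fun i => Sum.inr (L i))

omit [Fintype S] [DecidableEq S] in
lemma mk_inj {J J' : Fin m → S} {L L' : Fin l → Fin w} (h : mk J L = mk J' L') :
    J = J' ∧ L = L' := by
  constructor
  · funext j
    have := congrFun h (Sum.inl j)
    exact Sum.inl.inj this
  · funext i
    have := congrFun h (Sum.inr i)
    exact Sum.inr.inj this

/-- the form on the direct sum -/
def hat (t : (Fin m → S) → (Fin l → Fin w) → ℚ) (J : Fin m ⊕ Fin l → S ⊕ Fin w) : ℚ :=
  ∑ J1 : Fin m → S, ∑ L : Fin l → Fin w, if J = mk J1 L then t J1 L else 0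

lemma hat_mk (t : (Fin m → S) → (Fin l → Fin w) → ℚ) (J : Fin m → S) (L : Fin l → Fin w) :
    hat t (mk J L) = t J L := by
  unfold hat
  rw [sum_eq_single J, sum_eq_single L]
  · rw [if_pos rfl]
  · intro L' _ hL
    rw [if_neg]
    intro h
    exact hL (mk_inj h).2.symm
  · intro h; exact absurd (mem_univ L) h
  · intro J' _ hJ
    refine sum_eq_zero fun L' _ => ?_
    rw [if_neg]
    intro h
    exact hJ (mk_inj h).1.symm
  · intro h; exact absurd (mem_univ J) h

lemma EE_hat (t : (Fin m → S) → (Fin l → Fin w) → ℚ) (v : Fin m ⊕ Fin l → S ⊕ Fin w → ℂ) :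
    EE (fun J => (hat t J : ℂ)) v = ∑ J, ∑ L, (t J L : ℂ) *
      ((∏ j, v (Sum.inl j) (Sum.inl (J j))) * ∏ i, v (Sum.inr i) (Sum.inr (L i))) := by
  rw [EE_apply]
  have h1 : ∀ J : Fin m ⊕ Fin l → S ⊕ Fin w, (hat t J : ℂ) * ∏ j, v j (J j) =
      ∑ J1 : Fin m → S, ∑ L : Fin l → Fin w,
        if J = mk J1 L then (t J1 L : ℂ) * ∏ j, v j (J j) else 0 := by
    intro J
    unfold hat
    push_cast
    rw [sum_mul]
    refine sum_congr rfl fun J1 _ => ?_
    rw [sum_mul]
    refine sum_congr rfl fun L _ => ?_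
    split_ifs <;> simp
  rw [sum_congr rfl fun J _ => h1 J, sum_comm]
  refine sum_congr rfl fun J1 _ => ?_
  rw [sum_comm]
  refine sum_congr rfl fun L _ => ?_
  rw [sum_ite_eq' univ (mk J1 L), if_pos (mem_univ _), Fintype.prod_sum_type]
  rfl

lemma aN_hat (A : Matrix S S ℂ) (B : Matrix (Fin w) (Fin w) ℂ)
    (t : (Fin m → S) → (Fin l → Fin w) → ℚ) (J : Fin m → S) (L : Fin l → Fin w) :
    aN (fromBlocks A 0 0 B) (fun J => (hat t J : ℂ)) (mk J L) =
      act A (cx fun J => t J L) J + act B (cx (t J)) L := by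
  unfold aN act cx
  rw [Fintype.sum_sum_type]
  congr 1
  · refine sum_congr rfl fun j _ => ?_
    rw [Fintype.sum_sum_type]
    have h2 : ∑ c : Fin w, (fromBlocks A 0 0 B) (Sum.inr c) (mk J L (Sum.inl j)) *
        ((hat t (Function.update (mk J L) (Sum.inl j) (Sum.inr c)) : ℚ) : ℂ) = 0 := by
      refine sum_eq_zero fun c _ => ?_
      have : (fromBlocks A 0 0 B) (Sum.inr c) (mk J L (Sum.inl j)) = 0 := by
        simp [mk]
      rw [this, zero_mul]
    rw [h2, add_zero]
    refine sum_congr rfl fun c _ => ?_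
    have h3 : Function.update (mk J L) (Sum.inl j) (Sum.inl c) = mk (Function.update J j c) L := by
      funext z
      rcases z with z | z
      · by_cases hz : z = j
        · subst hz; simp [mk]
        · simp [mk, hz]
      · simp [mk]
    rw [h3]
    show (fromBlocks A 0 0 B) (Sum.inl c) (mk J L (Sum.inl j)) *
      ((hat t (mk (Function.update J j c) L) : ℚ) : ℂ) = A c (J j) * (t (Function.update J j c) L : ℂ)
    rw [hat_mk]
    simp [mk]
  · refine sum_congr rfl fun i _ => ?_
    rw [Fintype.sum_sum_type]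
    have h2 : ∑ c : S, (fromBlocks A 0 0 B) (Sum.inl c) (mk J L (Sum.inr i)) *
        ((hat t (Function.update (mk J L) (Sum.inr i) (Sum.inl c)) : ℚ) : ℂ) = 0 := by
      refine sum_eq_zero fun c _ => ?_
      have : (fromBlocks A 0 0 B) (Sum.inl c) (mk J L (Sum.inr i)) = 0 := by
        simp [mk]
      rw [this, zero_mul]
    rw [h2, zero_add]
    refine sum_congr rfl fun c _ => ?_
    have h3 : Function.update (mk J L) (Sum.inr i) (Sum.inr c) = mk J (Function.update L i c) := by
      funext z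
      rcases z with z | z
      · simp [mk]
      · by_cases hz : z = i
        · subst hz; simp [mk]
        · simp [mk, hz]
    rw [h3]
    show (fromBlocks A 0 0 B) (Sum.inr c) (mk J L (Sum.inr i)) *
      ((hat t (mk J (Function.update L i c)) : ℚ) : ℂ) = B c (L i) * (t J (Function.update L i c) : ℂ)
    rw [hat_mk]
    simp [mk]

end two

/-- `f` is an eigenvector of `xT` with eigenvalue `e`, in one of the two summands -/
def Good {n w : ℕ} (T : HS n) (W : HW w) (s : ℕ) (f : (Fin s ⊕ Fin n) ⊕ Fin w → ℂ) (e : ℂ) :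
    Prop :=
  (∃ (a : ℤ) (u : Fin s ⊕ Fin n → ℂ), f = Sum.elim u 0 ∧ T.xS s *ᵥ u = (a : ℂ) • u ∧ e = a) ∨
  (∃ (b : ℤ) (v : Fin w → ℂ), f = Sum.elim (0 : Fin s ⊕ Fin n → ℂ) v ∧ (2 : ℂ) • (W.y *ᵥ v) = (b : ℂ) • v ∧
    2 * e = b)

lemma Good.eigen {n w : ℕ} {T : HS n} {W : HW w} {s : ℕ} {f : (Fin s ⊕ Fin n) ⊕ Fin w → ℂ}
    {e : ℂ} (h : Good T W s f e) : xT T W s *ᵥ f = e • f := by
  rcases h with ⟨a, u, rfl, hu, rfl⟩ | ⟨b, v, rfl, hv, he⟩
  · unfold xT
    rw [fromBlocks_mulVec]
    funext z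
    rcases z with z | z
    · have := congrFun hu z
      simpa using this
    · simp
  · unfold xT
    rw [fromBlocks_mulVec]
    funext z
    rcases z with z | z
    · simp
    · have h1 := congrFun hv z
      simp only [Pi.smul_apply, smul_eq_mul] at h1
      simp only [Sum.elim_inr, Pi.smul_apply, smul_eq_mul]
      have h2 : (0 : Matrix (Fin w) (Fin s ⊕ Fin n) ℂ) *ᵥ (Sum.elim (0 : Fin s ⊕ Fin n → ℂ) v ∘ Sum.inl) = 0 := by
        simp
      rw [h2, zero_add]
      have h3 : (Sum.elim (0 : Fin s ⊕ Fin n → ℂ) v ∘ Sum.inr) = v := rfl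
      rw [h3]
      linear_combination (1 / 2 : ℂ) * h1 - (1 / 2 : ℂ) * v z * he

lemma dec {n w : ℕ} (T : HS n) (W : HW w) (s : ℕ) (z : (Fin s ⊕ Fin n) ⊕ Fin w → ℂ) :
    ∃ (f : Fin 5 → (Fin s ⊕ Fin n) ⊕ Fin w → ℂ) (e : Fin 5 → ℂ), z = ∑ r, f r ∧
      ∀ r, Good T W s (f r) (e r) := by
  obtain ⟨x, hx⟩ : ∃ x, x = T.xS s := ⟨_, rfl⟩
  have hc : x * (x * x) = x := by
    rw [hx]
    unfold HS.xS
    rw [fromBlocks_multiply, fromBlocks_multiply]
    simp [T.cube, ← Matrix.mul_assoc]
  have hy : W.y * W.y = (1 / 4 : ℂ) • (1 : Matrix (Fin w) (Fin w) ℂ) := by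
    rw [← W.sq, smul_smul]; norm_num
  obtain ⟨z1, hz1⟩ : ∃ z1, z1 = z ∘ Sum.inl := ⟨_, rfl⟩
  obtain ⟨z2, hz2⟩ : ∃ z2, z2 = z ∘ Sum.inr := ⟨_, rfl⟩
  refine ⟨![Sum.elim (((1 / 2 : ℂ) • (x * x + x)) *ᵥ z1) 0, Sum.elim ((1 - x * x) *ᵥ z1) 0,
    Sum.elim (((1 / 2 : ℂ) • (x * x - x)) *ᵥ z1) 0,
    Sum.elim 0 (((1 / 2 : ℂ) • (1 : Matrix (Fin w) (Fin w) ℂ) + W.y) *ᵥ z2),
    Sum.elim 0 (((1 / 2 : ℂ) • (1 : Matrix (Fin w) (Fin w) ℂ) - W.y) *ᵥ z2)],
    ![1, 0, -1, 1 / 2, -1 / 2], ?_, ?_⟩
  · have h1 : z1 = ((1 / 2 : ℂ) • (x * x + x)) *ᵥ z1 + (1 - x * x) *ᵥ z1 +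
        ((1 / 2 : ℂ) • (x * x - x)) *ᵥ z1 := by
      rw [← Matrix.add_mulVec, ← Matrix.add_mulVec]
      have : (1 / 2 : ℂ) • (x * x + x) + (1 - x * x) + (1 / 2 : ℂ) • (x * x - x) = 1 := by module
      rw [this, Matrix.one_mulVec]
    have h2 : z2 = ((1 / 2 : ℂ) • (1 : Matrix (Fin w) (Fin w) ℂ) + W.y) *ᵥ z2 +
        ((1 / 2 : ℂ) • (1 : Matrix (Fin w) (Fin w) ℂ) - W.y) *ᵥ z2 := by
      rw [← Matrix.add_mulVec]
      have : (1 / 2 : ℂ) • (1 : Matrix (Fin w) (Fin w) ℂ) + W.y +
          ((1 / 2 : ℂ) • (1 : Matrix (Fin w) (Fin w) ℂ) - W.y) = 1 := by module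
      rw [this, Matrix.one_mulVec]
    rw [Fin.sum_univ_five]
    funext q
    rcases q with q | q
    · have h3 := congrFun h1 q
      have h4 : z (Sum.inl q) = z1 q := by rw [hz1]; rfl
      simp only [Pi.add_apply] at h3 ⊢
      rw [h4]
      simpa using h3
    · have h3 := congrFun h2 q
      have h4 : z (Sum.inr q) = z2 q := by rw [hz2]; rfl
      simp only [Pi.add_apply] at h3 ⊢
      rw [h4]
      simpa using h3
  · intro r
    fin_cases r
    · refine Or.inl ⟨1, _, rfl, ?_, by simp⟩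
      rw [← hx, Matrix.mulVec_mulVec, mul_smul_comm, mul_add, hc, Int.cast_one, one_smul, add_comm]
    · refine Or.inl ⟨0, _, rfl, ?_, by simp⟩
      rw [← hx, Matrix.mulVec_mulVec, mul_sub, hc, mul_one, sub_self]
      simp
    · refine Or.inl ⟨-1, _, rfl, ?_, by simp⟩
      rw [← hx, Matrix.mulVec_mulVec, mul_smul_comm, mul_sub, hc, ← Matrix.smul_mulVec]
      congr 1
      push_cast
      module
    · refine Or.inr ⟨1, _, rfl, ?_, by simp⟩
      rw [Matrix.mulVec_mulVec, mul_add, hy, ← Matrix.smul_mulVec, ← Matrix.smul_mulVec,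
        mul_smul_comm, mul_one]
      congr 1
      push_cast
      module
    · refine Or.inr ⟨-1, _, rfl, ?_, by simp; norm_num⟩
      rw [Matrix.mulVec_mulVec, mul_sub, hy, ← Matrix.smul_mulVec, ← Matrix.smul_mulVec,
        mul_smul_comm, mul_one]
      congr 1
      push_cast
      module

theorem sep : S_sep := by
  intro n w s m l T W t ht h
  rcases h with rfl | h
  · -- no variable on the abelian variety
    constructor
    · intro L u a hu ha
      have h1 := ht u (fun i => i.elim0) a (fun i => i.elim0) hu (fun i => i.elim0)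
        (by simpa using ha)
      unfold evG
      rw [← h1]
      refine sum_congr rfl fun J _ => ?_
      rw [Fintype.sum_eq_single L (fun L' hL => absurd (Subsingleton.elim L' L) hL)]
      simp
    · intro J v b _ hb
      exact absurd (by simp) hb
  · -- the main case
    have hkill : aN (xT T W s) (fun J => (hat t J : ℂ)) = 0 := by
      rw [kil_iff]
      refine MultilinearMap.ext fun v => ?_
      choose f e hfe hG using fun j => dec T W s (v j)
      have h1 : v = fun j => ∑ r, f j r := funext fun j => hfe j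
      rw [h1, MultilinearMap.map_sum, _root_.zero_apply]
      refine sum_eq_zero fun r _ => ?_
      rw [Dr_eigen (xT T W s) _ (fun j => f j (r j)) (fun j => e j (r j))
        (fun j => (hG j (r j)).eigen)]
      by_cases h3 : ∑ j, e j (r j) = 0
      · rw [h3, zero_mul]
      · have h4 : EE (fun J => (hat t J : ℂ)) (fun j => f j (r j)) = 0 := by
          rw [EE_hat]
          by_cases hb1 : ∃ j : Fin m, ∀ q, f (Sum.inl j) (r (Sum.inl j)) (Sum.inl q) = 0
          · obtain ⟨j, hj⟩ := hb1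
            refine sum_eq_zero fun J _ => sum_eq_zero fun L _ => ?_
            rw [prod_eq_zero (mem_univ j) (hj (J j)), zero_mul, mul_zero]
          by_cases hb2 : ∃ i : Fin l, ∀ q, f (Sum.inr i) (r (Sum.inr i)) (Sum.inr q) = 0
          · obtain ⟨i, hi⟩ := hb2
            refine sum_eq_zero fun J _ => sum_eq_zero fun L _ => ?_
            rw [prod_eq_zero (mem_univ i) (hi (L i)), mul_zero, mul_zero]
          have hA : ∀ j : Fin m, ∃ (a : ℤ) (u : Fin s ⊕ Fin n → ℂ),
              f (Sum.inl j) (r (Sum.inl j)) = Sum.elim u 0 ∧ T.xS s *ᵥ u = (a : ℂ) • u ∧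
              e (Sum.inl j) (r (Sum.inl j)) = a := by
            intro j
            rcases hG (Sum.inl j) (r (Sum.inl j)) with h5 | ⟨b, v', h5, _, _⟩
            · exact h5
            · exfalso
              exact hb1 ⟨j, fun q => by rw [h5]; rfl⟩
          have hB : ∀ i : Fin l, ∃ (b : ℤ) (v : Fin w → ℂ),
              f (Sum.inr i) (r (Sum.inr i)) = Sum.elim (0 : Fin s ⊕ Fin n → ℂ) v ∧
              (2 : ℂ) • (W.y *ᵥ v) = (b : ℂ) • v ∧ 2 * e (Sum.inr i) (r (Sum.inr i)) = b := by
            intro i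
            rcases hG (Sum.inr i) (r (Sum.inr i)) with ⟨a, u, h5, _, _⟩ | h5
            · exfalso
              exact hb2 ⟨i, fun q => by rw [h5]; rfl⟩
            · exact h5
          choose a u hu1 hu2 hu3 using hA
          choose b v' hv1 hv2 hv3 using hB
          have h6 := ht u v' a b hu2 hv2 (by
            intro h7
            apply h3
            rw [Fintype.sum_sum_type]
            have h8 : (2 : ℂ) * ∑ j, (a j : ℂ) + ∑ i, (b i : ℂ) = 0 := by
              have := congrArg (fun z : ℤ => (z : ℂ)) h7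
              push_cast at this
              exact this
            have h9 : ∑ j, e (Sum.inl j) (r (Sum.inl j)) = ∑ j, (a j : ℂ) :=
              sum_congr rfl fun j _ => hu3 j
            have h10 : 2 * ∑ i, e (Sum.inr i) (r (Sum.inr i)) = ∑ i, (b i : ℂ) := by
              rw [mul_sum]
              exact sum_congr rfl fun i _ => hv3 i
            rw [h9]
            linear_combination (1 / 2 : ℂ) * h8 + (1 / 2 : ℂ) * h10)
          rw [← h6]
          refine sum_congr rfl fun J _ => sum_congr rfl fun L _ => ?_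
          congr 2
          · exact prod_congr rfl fun j _ => by rw [hu1]; rfl
          · exact prod_congr rfl fun i _ => by rw [hv1]; rfl
        rw [h4, mul_zero]
    have hkill2 := hX_gen h finSumFinEquiv (hat t) hkill
    have hx : ∀ L, act (T.xS s) (cx fun J => t J L) = 0 := by
      intro L
      funext J
      have h1 := congrFun hkill2 (mk J L)
      rw [aN_hat] at h1
      have h2 : act (0 : Matrix (Fin w) (Fin w) ℂ) (cx (t J)) L = 0 := by simp [act]
      rw [h2, add_zero] at h1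
      exact h1
    have hy : ∀ J, act W.y (cx (t J)) = 0 := by
      intro J
      funext L
      have h1 := congrFun hkill (mk J L)
      unfold xT at h1
      rw [aN_hat, hx L] at h1
      simpa using h1
    constructor
    · intro L u a hu ha
      have h1 : aN (T.xS s) (cx fun J => t J L) = 0 := hx L
      exact killed h1 u (fun j => (a j : ℂ)) hu (by
        intro h2
        apply ha
        exact_mod_cast h2)
    · intro J v b hv hb
      have h1 : aN W.y (cx (t J)) = 0 := hy J
      refine killed h1 v (fun i => (b i : ℂ) / 2) (fun i => ?_) (by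
        intro h2
        apply hb
        rw [← sum_div, div_eq_zero_iff] at h2
        rcases h2 with h2 | h2
        · exact_mod_cast h2
        · exact absurd h2 two_ne_zero)
      have h3 := hv i
      funext q
      have h4 := congrFun h3 q
      simp only [Pi.smul_apply, smul_eq_mul] at h4 ⊢
      linear_combination (1 / 2 : ℂ) * h4

end Pool.Agent.W143.PG
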